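import Pool.Agent.R896.Sl2

/-!
# The number of monomials with bounded exponents
-/

set_option autoImplicit false

namespace Pool.Agent.R896

open Finset

/-- The number of exponent vectors of degree `e` with `N` entries less than `b`. -/
def cnt (N b e : ℕ) : ℕ :=
  ((Fintype.piFinset fun _ : Fin N => range b).filter (fun a => ∑ i, a i = e)).card

lemma finrank_VV (N b e : ℕ) : Module.finrank ℂ (VV N b e) = cnt N b e := by
  classical
  have h1 : (Bx N b e).Finite := by
    refine Set.Finite.subset (Finsupp.finite_of_degree_le e) ?_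
    intro a ha
    exact ha.1.le
  have := h1.fintype
  rw [VV, Module.finrank_eq_card_basis (MvPolynomial.basisRestrictSupport ℂ (Bx N b e)), cnt,
    ← Fintype.card_coe]
  refine Fintype.card_congr ?_
  refine (Finsupp.equivFunOnFinite.subtypeEquiv fun a => ?_)
  rw [mem_filter, Fintype.mem_piFinset]
  constructor
  · rintro ⟨h2, h3⟩
    refine ⟨fun i => mem_range.2 (h3 i), ?_⟩
    rw [← h2, Finsupp.degree_eq_sum]
    rfl
  · rintro ⟨h2, h3⟩
    refine ⟨?_, fun i => mem_range.1 (h2 i)⟩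
    rw [Finsupp.degree_eq_sum, ← h3]
    rfl

open PowerSeries in
lemma coeff_geom (N b e : ℕ) :
    PowerSeries.coeff e ((∑ j ∈ range b, (PowerSeries.X : PowerSeries ℤ) ^ j) ^ N) = cnt N b e := by
  have h1 : (∑ j ∈ range b, (PowerSeries.X : PowerSeries ℤ) ^ j) ^ N =
      ∑ a ∈ Fintype.piFinset (fun _ : Fin N => range b),
        (PowerSeries.X : PowerSeries ℤ) ^ (∑ i, a i) := by
    have h2 := Finset.prod_univ_sum (fun _ : Fin N => range b)
      (fun _ j => (PowerSeries.X : PowerSeries ℤ) ^ j)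
    rw [Finset.prod_const, Finset.card_univ, Fintype.card_fin] at h2
    rw [h2]
    refine Finset.sum_congr rfl fun a _ => ?_
    rw [Finset.prod_pow_eq_pow_sum]
  rw [h1, map_sum, cnt, Finset.card_filter]
  push_cast
  refine Finset.sum_congr rfl fun a _ => ?_
  rw [PowerSeries.coeff_X_pow]
  by_cases h : e = ∑ i, a i
  · rw [if_pos h, if_pos h.symm]
  · rw [if_neg h, if_neg (Ne.symm h)]

/-- The formula of inclusion and exclusion. -/
lemma cnt_formula (N b e : ℕ) : (cnt (N + 1) b e : ℤ) =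
    ∑ j ∈ range (N + 2), if b * j ≤ e then
      (-1) ^ j * ((N + 1).choose j : ℤ) * ((N + (e - b * j)).choose N : ℤ) else 0 := by
  rw [← coeff_geom]
  obtain ⟨G, hG⟩ : ∃ G : PowerSeries ℤ, G = ∑ j ∈ range b, (PowerSeries.X : PowerSeries ℤ) ^ j :=
    ⟨_, rfl⟩
  obtain ⟨B, hB⟩ : ∃ B : PowerSeries ℤ, B = PowerSeries.mk fun n => ((N + n).choose N : ℤ) :=
    ⟨_, rfl⟩
  have h1 : G * (1 - PowerSeries.X) = 1 - PowerSeries.X ^ b := by
    rw [hG]; exact geom_sum_mul_neg _ _
  have h2 : B * (1 - PowerSeries.X) ^ (N + 1) = 1 := by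
    rw [hB]
    have := PowerSeries.mk_add_choose_mul_one_sub_pow_eq_one ℤ N
    simpa using this
  have h3 : G ^ (N + 1) = (1 - PowerSeries.X ^ b) ^ (N + 1) * B := by
    calc G ^ (N + 1) = G ^ (N + 1) * (B * (1 - PowerSeries.X) ^ (N + 1)) := by rw [h2, mul_one]
      _ = (G * (1 - PowerSeries.X)) ^ (N + 1) * B := by rw [mul_pow]; ring
      _ = _ := by rw [h1]
  have h4 : ((1 : PowerSeries ℤ) - PowerSeries.X ^ b) ^ (N + 1) =
      ∑ j ∈ range (N + 2), ((-1) ^ j * ((N + 1).choose j : ℤ)) •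
        (PowerSeries.X : PowerSeries ℤ) ^ (b * j) := by
    rw [sub_eq_neg_add, add_pow]
    refine Finset.sum_congr rfl fun j _ => ?_
    rw [one_pow, mul_one, neg_pow, ← pow_mul, zsmul_eq_mul]
    push_cast
    ring
  rw [← hG, h3, h4, Finset.sum_mul, map_sum]
  refine Finset.sum_congr rfl fun j _ => ?_
  rw [smul_mul_assoc, map_smul, PowerSeries.coeff_X_pow_mul', smul_eq_mul]
  split_ifs with h
  · rw [hB, PowerSeries.coeff_mk]
  · rw [mul_zero]

end Pool.Agent.R896
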