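import Pool.Agent.R896.Van
import Pool.Agent.R896.Cnt

/-!
# A divisor of negative degree on the anticanonical curve class
-/

set_option autoImplicit false

namespace Pool.Agent.R896

open MvPolynomial Finset
open Pool.Agent.H689R3.Weyl

lemma Dq_comm {N : ℕ} (q q' : Fin N → ℂ) : Commute (Dq q) (Dq q') := by
  refine LinearMap.ext fun f => ?_
  rw [Module.End.mul_apply, Module.End.mul_apply, Dq_apply q' f, Dq_apply q' (Dq q f), map_sum]
  refine Finset.sum_congr rfl fun i _ => ?_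
  rw [map_smul, Dq_pd]

lemma c150 : (cnt 7 45 150 : ℤ) = 4218132345 := by
  rw [cnt_formula 6 45 150]; decide +kernel

lemma c102 : (cnt 7 45 102 : ℤ) = 1438325385 := by
  rw [cnt_formula 6 45 102]; decide +kernel

lemma c54 : (cnt 7 45 54 : ℤ) = 50028825 := by
  rw [cnt_formula 6 45 54]; decide +kernel

section dims

variable {N : ℕ} (b c : ℕ)

/-- The forms which are killed by the power of the derivative in the direction `q`. -/
noncomputable def KK (q : Fin N → ℂ) (e : ℕ) : Submodule ℂ (MvPolynomial (Fin N) ℂ) :=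
  VV N b e ⊓ LinearMap.ker (Dq q ^ c)

lemma mem_KK {q : Fin N → ℂ} {e : ℕ} {f : MvPolynomial (Fin N) ℂ} :
    f ∈ KK b c q e ↔ f ∈ VV N b e ∧ (Dq q ^ c) f = 0 := by
  rw [KK, Submodule.mem_inf, LinearMap.mem_ker]

instance (q : Fin N → ℂ) (e : ℕ) : FiniteDimensional ℂ (KK b c q e) :=
  Submodule.finiteDimensional_of_le (S₂ := VV N b e) inf_le_left

/-- The power of the derivative as a map from `VV` to `VV`. -/
noncomputable def TT (q : Fin N → ℂ) (e : ℕ) : VV N b (e + c) →ₗ[ℂ] VV N b e :=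
  (Dq q ^ c).restrict fun _ hf => Dq_pow_mem q hf

lemma finrank_ker_TT (q : Fin N → ℂ) (e : ℕ) :
    Module.finrank ℂ (LinearMap.ker (TT b c q e)) = Module.finrank ℂ (KK b c q (e + c)) := by
  have h1 : (LinearMap.ker (TT b c q e)).map (VV N b (e + c)).subtype = KK b c q (e + c) := by
    ext f
    rw [Submodule.mem_map, mem_KK]
    constructor
    · rintro ⟨g, hg, rfl⟩
      refine ⟨g.2, ?_⟩
      exact congrArg Subtype.val (LinearMap.mem_ker.1 hg)
    · rintro ⟨h2, h3⟩
      exact ⟨⟨f, h2⟩, Subtype.ext h3, rfl⟩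
  rw [← h1]
  exact (LinearEquiv.finrank_eq (Submodule.equivMapOfInjective _ (Submodule.injective_subtype _) _))

lemma KK_lower (q : Fin N → ℂ) (e : ℕ) :
    cnt N b (e + c) ≤ Module.finrank ℂ (KK b c q (e + c)) + cnt N b e := by
  have h1 := LinearMap.finrank_range_add_finrank_ker (TT b c q e)
  have h2 : Module.finrank ℂ (LinearMap.range (TT b c q e)) ≤ Module.finrank ℂ (VV N b e) :=
    Submodule.finrank_le _
  rw [finrank_ker_TT, finrank_VV] at h1
  rw [finrank_VV] at h2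
  omega

lemma KK_eq {q : Fin N → ℂ} (hq : ∀ i, q i ≠ 0) {e : ℕ} (he : 2 * (e + c) < N * (b - 1) + 2) :
    cnt N b (e + c) = Module.finrank ℂ (KK b c q (e + c)) + cnt N b e := by
  have h1 := LinearMap.finrank_range_add_finrank_ker (TT b c q e)
  have h2 : LinearMap.range (TT b c q e) = ⊤ := by
    rw [LinearMap.range_eq_top]
    intro g
    obtain ⟨f, hf, hfg⟩ := Dq_pow_surj (c := c) hq he g.2
    exact ⟨⟨f, hf⟩, Subtype.ext hfg⟩
  rw [h2, finrank_top, finrank_ker_TT, finrank_VV, finrank_VV] at h1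
  omega

lemma SS_mem {q q' : Fin N → ℂ} {e : ℕ} {f : MvPolynomial (Fin N) ℂ}
    (hf : f ∈ KK b c q (e + c)) : (Dq q' ^ c) f ∈ KK b c q e := by
  rw [mem_KK] at hf ⊢
  refine ⟨Dq_pow_mem q' hf.1, ?_⟩
  rw [← Module.End.mul_apply, ((Dq_comm q q').pow_pow c c).eq, Module.End.mul_apply, hf.2, map_zero]

/-- Two powers of derivatives on `KK`. -/
noncomputable def SS (q q' : Fin N → ℂ) (e : ℕ) : KK b c q (e + c) →ₗ[ℂ] KK b c q e :=
  (Dq q' ^ c).restrict fun _ hf => SS_mem b c hf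

lemma exists_aux (q q' q'' : Fin N → ℂ) (e : ℕ)
    (h : 2 * Module.finrank ℂ (KK b c q e) < Module.finrank ℂ (KK b c q (e + c))) :
    ∃ f ∈ VV N b (e + c), f ≠ 0 ∧ (Dq q ^ c) f = 0 ∧ (Dq q' ^ c) f = 0 ∧ (Dq q'' ^ c) f = 0 := by
  let Φ : KK b c q (e + c) →ₗ[ℂ] KK b c q e × KK b c q e := (SS b c q q' e).prod (SS b c q q'' e)
  have h3 : Module.finrank ℂ (KK b c q e × KK b c q e) <
      Module.finrank ℂ (KK b c q (e + c)) := by
    rw [Module.finrank_prod]
    omega
  have h4 : LinearMap.ker Φ ≠ ⊥ := LinearMap.ker_ne_bot_of_finrank_lt h3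
  obtain ⟨f, hf, hf0⟩ := Submodule.exists_mem_ne_zero_of_ne_bot h4
  have h5 := LinearMap.mem_ker.1 hf
  have h6 : SS b c q q' e f = 0 := congrArg Prod.fst h5
  have h7 : SS b c q q'' e f = 0 := congrArg Prod.snd h5
  have h8 := (mem_KK b c).1 f.2
  refine ⟨f.1, h8.1, fun h => hf0 (Subtype.ext h), h8.2, ?_, ?_⟩
  · exact congrArg Subtype.val h6
  · exact congrArg Subtype.val h7

theorem exists_gen (q q' q'' : Fin N → ℂ) (hq : ∀ i, q i ≠ 0) (e : ℕ)
    (he : 2 * (e + c) < N * (b - 1) + 2)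
    (h : 3 * cnt N b (e + c) < cnt N b (e + c + c) + 2 * cnt N b e) :
    ∃ f ∈ VV N b (e + c + c), f ≠ 0 ∧ (Dq q ^ c) f = 0 ∧ (Dq q' ^ c) f = 0 ∧
      (Dq q'' ^ c) f = 0 := by
  have h1 := KK_lower b c q (e + c)
  have h2 := KK_eq b c hq he
  exact exists_aux b c q q' q'' (e + c) (by omega)

end dims

/-- The existence of the form in the standard position. -/
theorem exists_form (q q' q'' : Fin (6 + 1) → ℂ) (hq : ∀ i, q i ≠ 0) {c d : ℕ} (hc : c = 48)
    (hd : d = 150) :
    ∃ f ∈ VV (6 + 1) 45 d, f ≠ 0 ∧ (Dq q ^ c) f = 0 ∧ (Dq q' ^ c) f = 0 ∧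
      (Dq q'' ^ c) f = 0 := by
  obtain ⟨e, he⟩ : ∃ e : ℕ, e = 54 := ⟨_, rfl⟩
  have h1 : d = e + c + c := by omega
  have e1 : (cnt (6 + 1) 45 d : ℤ) = 4218132345 := by rw [hd]; exact c150
  have e2 : (cnt (6 + 1) 45 (e + c) : ℤ) = 1438325385 := by rw [he, hc]; exact c102
  have e3 : (cnt (6 + 1) 45 e : ℤ) = 50028825 := by rw [he]; exact c54
  rw [h1] at e1 ⊢
  exact exists_gen 45 c q q' q'' hq e (by omega) (by omega)

/-- The class `150 H - 106 (E₁ + … + E₇) - 103 (E₈ + E₉ + E₁₀)`. -/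
def D10 : NInt 10 := (150, fun i => if i.val < 7 then 106 else 103)

lemma eff_of_std {u : Fin 10 → Fin (6 + 1) → ℂ} (h1 : ∀ l : Fin 7, u ⟨l.val, by omega⟩ = bas l)
    (h2 : ∀ l, u 7 l ≠ 0) : IsEffective u D10 := by
  obtain ⟨c, hc⟩ : ∃ c : ℕ, c = 48 := ⟨_, rfl⟩
  obtain ⟨f, hf, hf0, k1, k2, k3⟩ := exists_form (u 7) (u 8) (u 9) h2 hc rfl
  have hh : f.IsHomogeneous 150 := VV_homog hf
  have hex : ∀ a ∈ f.support, a ∈ Bx 7 45 150 := fun a ha =>
    (mem_restrictSupport_iff ℂ).1 hf ha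
  have hv : ∀ q : Fin (6 + 1) → ℂ, (Dq q ^ c) f = 0 → VanishesToOrder q 103 f := by
    intro q hq
    have e0 : (103 : ℤ).toNat = 103 := rfl
    unfold VanishesToOrder
    rw [e0]
    obtain ⟨m, hm⟩ : ∃ m : ℕ, m = 103 := ⟨_, rfl⟩
    rw [← hm]
    exact vanish q hh hq (by rw [hc, hm])
  refine ⟨by norm_num [D10], f, hf0, hh, fun i => ?_⟩
  by_cases hi : i.val < 7
  · have e1 : D10.2 i = 106 := by simp [D10, hi]
    rw [e1]
    have e2 : u i = bas ⟨i.val, hi⟩ := h1 ⟨i.val, hi⟩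
    rw [e2]
    unfold VanishesToOrder
    have e3 : (106 : ℤ).toNat = 106 := rfl
    rw [e3]
    obtain ⟨m, hm⟩ : ∃ m : ℕ, m = 106 := ⟨_, rfl⟩
    rw [← hm]
    refine mem_of_exponents _ fun a ha => ?_
    have h3 := hex a ha
    have h4 := Finset.add_sum_erase univ (fun l => a l) (mem_univ (⟨i.val, hi⟩ : Fin (6 + 1)))
    have h5 := h3.1
    rw [Finsupp.degree_eq_sum] at h5
    have h6 := h3.2 ⟨i.val, hi⟩
    have h7 : a ⟨i.val, hi⟩ + ∑ l ∈ univ.erase (⟨i.val, hi⟩ : Fin (6 + 1)), a l = 150 :=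
      h4.trans h5
    omega
  · have e1 : D10.2 i = 103 := by simp [D10, hi]
    rw [e1]
    have h3 : i = 7 ∨ i = 8 ∨ i = 9 := by
      rcases i with ⟨i, h⟩
      have h4 : i = 7 ∨ i = 8 ∨ i = 9 := by
        simp only at hi; omega
      rcases h4 with rfl | rfl | rfl <;> simp
    rcases h3 with rfl | rfl | rfl
    · exact hv _ k1
    · exact hv _ k2
    · exact hv _ k3

/-- The first seven points. -/
def I7 : Finset (Fin 10) := univ.filter fun i => i.val < 7

/-- Their numbering. -/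
def e7 : Fin (6 + 1) ≃ I7 where
  toFun l := ⟨⟨l.val, by omega⟩, by simp [I7]⟩
  invFun i := ⟨i.1.val, by have := i.2; simp only [I7, mem_filter] at this; exact this.2⟩
  left_inv _ := rfl
  right_inv _ := rfl

lemma eff_of_nondeg (p : Fin 10 → Fin (6 + 1) → ℂ) (hdet : (ptMat e7 p).det ≠ 0)
    (hcoord : ∀ j, j ∉ I7 → ∀ l, ((ptMat e7 p).adjugate.mulVec (p j)) l ≠ 0) :
    IsEffective p D10 := by
  classical
  obtain ⟨A, hA⟩ : ∃ A, A = ptMat e7 p := ⟨_, rfl⟩
  rw [← hA] at hdet hcoord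
  have hunit : IsUnit A.det := isUnit_iff_ne_zero.2 hdet
  let u : Fin 10 → Fin (6 + 1) → ℂ := fun j => A⁻¹.mulVec (p j)
  have hu : ∀ j, j ∉ I7 → ∀ l, u j l ≠ 0 := by
    intro j hj l
    have h1 : u j l = (A.det)⁻¹ * (A.adjugate.mulVec (p j)) l := by
      change (A⁻¹.mulVec (p j)) l = _
      rw [Matrix.inv_def, Ring.inverse_eq_inv', Matrix.smul_mulVec]; rfl
    rw [h1]
    exact mul_ne_zero (inv_ne_zero hdet) (hcoord j hj l)
  have hue : ∀ l, u (e7 l) = bas l := by
    intro l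
    have h1 : p (e7 l) = A.mulVec (bas l) := by
      funext k
      simp [bas, hA, ptMat]
    change A⁻¹.mulVec (p (e7 l)) = _
    rw [h1, Matrix.mulVec_mulVec, Matrix.nonsing_inv_mul _ hunit, Matrix.one_mulVec]
  have h2 := eff_of_std (u := u) (fun l => hue l) (hu 7 (by simp [I7]))
  have h3 := effective_linear h2 A hunit
  have h4 : (fun i => A.mulVec (u i)) = p := by
    funext j
    change A.mulVec (A⁻¹.mulVec (p j)) = p j
    rw [Matrix.mulVec_mulVec, Matrix.mul_nonsing_inv _ hunit, Matrix.one_mulVec]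
  rw [h4] at h3
  exact h3

/-- The class is effective for all configurations of ten points. -/
theorem effAll_D10 : EffAll 6 D10 := by
  classical
  by_contra hcon
  unfold EffAll at hcon
  push Not at hcon
  obtain ⟨p', hp'⟩ := hcon
  obtain ⟨G, hG0, hG⟩ := exists_poly _ p' hp'
  have hprod : G * nondeg e7 = 0 := by
    apply MvPolynomial.funext
    intro q
    rw [map_zero, map_mul]
    by_cases hq : MvPolynomial.eval q (nondeg e7) = 0
    · rw [hq, mul_zero]
    let p : Fin 10 → Fin (6 + 1) → ℂ := fun i l => q (i, l)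
    have hqp : flat p = q := rfl
    have h1 := eval_nondeg e7 p
    rw [hqp] at h1
    rw [h1] at hq
    have hdet : (ptMat e7 p).det ≠ 0 := left_ne_zero_of_mul hq
    have hpr := right_ne_zero_of_mul hq
    have hcoord : ∀ j, j ∉ I7 → ∀ l, ((ptMat e7 p).adjugate.mulVec (p j)) l ≠ 0 := by
      intro j hj l
      rw [Finset.prod_ne_zero_iff] at hpr
      have h2 := hpr j (Finset.mem_sdiff.2 ⟨mem_univ _, hj⟩)
      rw [Finset.prod_ne_zero_iff] at h2
      exact h2 l (mem_univ _)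
    have h3 := hG p (eff_of_nondeg p hdet hcoord)
    rw [hqp] at h3
    rw [h3, zero_mul]
  rcases mul_eq_zero.1 hprod with h1 | h1
  · exact hG0 h1
  · exact nondeg_ne_zero e7 h1

/-- The multiplicities at `n + 4` points of projective `n`-space. -/
def mul4 (n : ℕ) (i : Fin (n + 4)) : ℕ := if i.val < 7 then 106 else if i.val < 10 then 103 else 150

/-- A surjective linear map to a space of dimension `7` which kills `n - 6` vectors. -/
lemma exists_proj {n : ℕ} (hn : 6 ≤ n) (p : Fin (n + 4) → Fin (n + 1) → ℂ) :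
    ∃ π : (Fin (n + 1) → ℂ) →ₗ[ℂ] (Fin (6 + 1) → ℂ), Function.Surjective π ∧
      ∀ i, 10 ≤ i.val → π (p i) = 0 := by
  classical
  obtain ⟨W, hW⟩ : ∃ W : Submodule ℂ (Fin (n + 1) → ℂ), W = Submodule.span ℂ
      ((univ.image fun j : Fin (n - 6) => p ⟨j.val + 10, by omega⟩ :
        Finset (Fin (n + 1) → ℂ)) : Set (Fin (n + 1) → ℂ)) := ⟨_, rfl⟩
  have h1 : Module.finrank ℂ W ≤ n - 6 := by
    rw [hW]
    refine (finrank_span_finset_le_card _).trans ?_
    refine Finset.card_image_le.trans ?_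
    rw [Finset.card_univ, Fintype.card_fin]
  have h2 := Submodule.finrank_quotient_add_finrank W
  rw [Module.finrank_fin_fun] at h2
  obtain ⟨r, hr⟩ : ∃ r, r = Module.finrank ℂ ((Fin (n + 1) → ℂ) ⧸ W) := ⟨_, rfl⟩
  have h3 : 7 ≤ r := by omega
  let B : Module.Basis (Fin r) ℂ ((Fin (n + 1) → ℂ) ⧸ W) := Module.finBasisOfFinrankEq ℂ _ hr.symm
  refine ⟨(LinearMap.funLeft ℂ ℂ (Fin.castLE h3 : Fin (6 + 1) → Fin r)).comp
    (B.equivFun.toLinearMap.comp W.mkQ), ?_, fun i hi => ?_⟩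
  · rw [LinearMap.coe_comp, LinearMap.coe_comp]
    refine (LinearMap.funLeft_surjective_of_injective ℂ ℂ _ (Fin.castLE_injective h3)).comp ?_
    exact B.equivFun.surjective.comp (Submodule.mkQ_surjective W)
  · have h4 : p i ∈ W := by
      rw [hW]
      apply Submodule.subset_span
      rw [Finset.mem_coe, Finset.mem_image]
      refine ⟨⟨i.val - 10, by omega⟩, mem_univ _, ?_⟩
      congr 1
      exact Fin.ext (by simp only; omega)
    have h5 : W.mkQ (p i) = 0 := (Submodule.Quotient.mk_eq_zero W).2 h4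
    rw [LinearMap.comp_apply, LinearMap.comp_apply, h5, map_zero, map_zero]

/-- **Main theorem.** -/
theorem main {n : ℕ} (hn : 6 ≤ n) (p : Fin (n + 4) → Fin (n + 1) → ℂ) :
    ∃ f : MvPolynomial (Fin (n + 1)) ℂ, f ≠ 0 ∧ f.IsHomogeneous 150 ∧
      ∀ i, f ∈ (RingHom.ker (MvPolynomial.eval (p i))) ^ mul4 n i := by
  classical
  obtain ⟨π, hπ, hker⟩ := exists_proj hn p
  obtain ⟨-, f, hf0, hf, hm⟩ := effAll_D10 fun i => π (p ⟨i.val, by omega⟩)
  have hf' : f.IsHomogeneous 150 := hf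
  let φ : MvPolynomial (Fin (6 + 1)) ℂ →ₐ[ℂ] MvPolynomial (Fin (n + 1)) ℂ :=
    aeval (fun l => ∑ k, C (π (Pi.single k 1) l) * X k)
  have heval : ∀ (x : Fin (n + 1) → ℂ) (g : MvPolynomial (Fin (6 + 1)) ℂ),
      MvPolynomial.eval x (φ g) = MvPolynomial.eval (π x) g := by
    intro x g
    have h1 : ((MvPolynomial.eval x).comp φ.toRingHom) = MvPolynomial.eval (π x) := by
      apply MvPolynomial.ringHom_ext
      · intro r; simp [φ]
      · intro l
        simp only [RingHom.comp_apply, AlgHom.toRingHom_eq_coe, RingHom.coe_coe, φ, aeval_X,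
          map_sum, map_mul, eval_C, eval_X]
        have h2 : x = ∑ k, x k • (Pi.single k 1 : Fin (n + 1) → ℂ) := by
          funext j
          simp [Finset.sum_apply, Pi.single_apply]
        conv_rhs => rw [h2, map_sum]
        rw [Finset.sum_apply]
        refine Finset.sum_congr rfl fun k _ => ?_
        rw [map_smul, Pi.smul_apply, smul_eq_mul, mul_comm]
    exact DFunLike.congr_fun h1 g
  have hker' : ∀ x : Fin (n + 1) → ℂ, ∀ m : ℕ,
      f ∈ (RingHom.ker (MvPolynomial.eval (π x))) ^ m →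
      φ f ∈ (RingHom.ker (MvPolynomial.eval x)) ^ m := by
    intro x m hx
    have hle : Ideal.map φ (RingHom.ker (MvPolynomial.eval (π x))) ≤
        RingHom.ker (MvPolynomial.eval x) := by
      rw [Ideal.map_le_iff_le_comap]
      intro g hg
      rw [Ideal.mem_comap, RingHom.mem_ker, heval]
      exact hg
    have h1 := Ideal.mem_map_of_mem φ hx
    rw [Ideal.map_pow] at h1
    exact Ideal.pow_right_mono hle _ h1
  refine ⟨φ f, ?_, ?_, fun i => hker' _ _ ?_⟩
  · intro h1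
    apply hf0
    apply MvPolynomial.funext
    intro y
    obtain ⟨x, rfl⟩ := hπ y
    rw [← heval, h1, map_zero, map_zero]
  · have h2 := hf'.aeval (fun l => ∑ k, C (π (Pi.single k 1) l) * X k) (n := 1) (S := ℂ)
      (fun l => by
        refine MvPolynomial.IsHomogeneous.sum _ _ _ fun k _ => ?_
        have := (isHomogeneous_C (Fin (n + 1)) (π (Pi.single k 1) l)).mul (isHomogeneous_X ℂ k)
        simpa using this)
    rw [one_mul] at h2
    exact h2
  · rcases Nat.lt_or_ge i.val 10 with hi | hi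
    · have h1 := hm ⟨i.val, hi⟩
      unfold VanishesToOrder at h1
      have h2 : (D10.2 ⟨i.val, hi⟩).toNat = mul4 n i := by
        unfold mul4 D10
        by_cases h7 : i.val < 7
        · simp [h7]
        · simp [h7, hi]
      rw [h2] at h1
      exact h1
    · rw [hker i hi, mem_ker_pow_iff]
      intro b hb
      have h1 : shift (0 : Fin (6 + 1) → ℂ) f = f := by
        have : (shift (0 : Fin (6 + 1) → ℂ)) = AlgHom.id ℂ _ := by
          apply MvPolynomial.algHom_ext
          intro i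
          simp [shift]
        rw [this]; rfl
      rw [h1]
      apply hf'.coeff_eq_zero
      have h2 : mul4 n i = 150 := by
        unfold mul4
        rw [if_neg (by omega), if_neg (by omega)]
      omega

lemma sum_mul4 {n : ℕ} (hn : 6 ≤ n) : ∑ i, mul4 n i = (n + 1) * 150 + 1 := by
  obtain ⟨k, rfl⟩ := Nat.exists_eq_add_of_le hn
  have h2 : ∑ i : Fin (6 + k + 4), mul4 (6 + k) i =
      ∑ i ∈ range (6 + k + 4), if i < 7 then 106 else if i < 10 then 103 else 150 :=
    Fin.sum_univ_eq_sum_range (fun i => if i < 7 then 106 else if i < 10 then 103 else 150) _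
  have h1 : ∀ k : ℕ, (∑ i ∈ range (6 + k + 4),
      if i < 7 then 106 else if i < 10 then 103 else 150) = 1051 + 150 * k := by
    intro k
    induction k with
    | zero => decide
    | succ k ih =>
      rw [show 6 + (k + 1) + 4 = (6 + k + 4) + 1 by ring, Finset.sum_range_succ,
        if_neg (by omega), if_neg (by omega), ih]
      ring
  rw [h2, h1]
  ring

end Pool.Agent.R896
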