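import Mathlib
import Pool.Agent.R693.SU.Stm

set_option autoImplicit false

open Cardinal

namespace Pool.Agent.R896.SU_AUT

open Pool.Agent.R693.SU

theorem case_alg (z : algebraicClosure ℚ ℂ) (τ : algebraicClosure ℚ ℂ ≃ₐ[ℚ] algebraicClosure ℚ ℂ) :
    ∃ σ : ℂ ≃+* ℂ, σ (z : ℂ) = (τ z : ℂ) := by
  obtain ⟨s, hs⟩ := exists_isTranscendenceBasis (algebraicClosure ℚ ℂ) ℂ
  letI := IsAlgClosed.isAlgClosure_of_transcendence_basis _ hs
  let e : Algebra.adjoin (algebraicClosure ℚ ℂ) (Set.range ((↑) : s → ℂ)) ≃+*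
      Algebra.adjoin (algebraicClosure ℚ ℂ) (Set.range ((↑) : s → ℂ)) :=
    (hs.1.aevalEquiv.symm.toRingEquiv.trans (MvPolynomial.mapEquiv s τ.toRingEquiv)).trans
      hs.1.aevalEquiv.toRingEquiv
  refine ⟨IsAlgClosure.equivOfEquiv ℂ ℂ e, ?_⟩
  have h1 := IsAlgClosure.equivOfEquiv_algebraMap ℂ ℂ e
    (algebraMap (algebraicClosure ℚ ℂ) _ z)
  have h2 : e (algebraMap (algebraicClosure ℚ ℂ) _ z) = algebraMap (algebraicClosure ℚ ℂ) _ (τ z) := by
    simp only [e, RingEquiv.trans_apply, AlgEquiv.toRingEquiv_eq_coe, AlgEquiv.coe_ringEquiv,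
      AlgEquiv.commutes, MvPolynomial.algebraMap_eq, MvPolynomial.mapEquiv_apply,
      MvPolynomial.map_C]
    exact hs.1.aevalEquiv.commutes (τ z)
  rw [h2] at h1
  exact h1

theorem aut : S_AUT := by
  intro z hz
  by_cases ha : IsAlgebraic ℚ z
  · let z' : algebraicClosure ℚ ℂ := ⟨z, (mem_algebraicClosure_iff).2 ha⟩
    have hC : IsAlgClosure ℚ (algebraicClosure ℚ ℂ) := algebraicClosure.isAlgClosure ℚ ℂ
    have hN : Normal ℚ (algebraicClosure ℚ ℂ) := IsAlgClosure.normal ℚ _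
    have hG : IsGalois ℚ (algebraicClosure ℚ ℂ) := { }
    have h1 : z' ∈ (⊥ : IntermediateField ℚ (algebraicClosure ℚ ℂ)) := by
      rw [InfiniteGalois.mem_bot_iff_fixed]
      intro τ
      obtain ⟨σ, hσ⟩ := case_alg z' τ
      apply Subtype.ext
      rw [← hσ]
      exact hz σ
    obtain ⟨q, hq⟩ := IntermediateField.mem_bot.1 h1
    refine ⟨q, ?_⟩
    have := congrArg (fun w : algebraicClosure ℚ ℂ => (w : ℂ)) hq
    simpa using this
  · exfalso
    have hi : AlgebraicIndependent ℚ ((↑) : ({z} : Set ℂ) → ℂ) :=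
      (algebraicIndependent_unique_type_iff (ι := ({z} : Set ℂ))).2 ha
    obtain ⟨s, hs1, hs⟩ := exists_isTranscendenceBasis_superset hi
    have hzs : z ∈ s := hs1 rfl
    have hcard := IsAlgClosed.cardinal_eq_cardinal_transcendence_basis_of_aleph0_lt' _ hs
      (by simp) (by rw [Cardinal.mk_complex]; exact Cardinal.aleph0_lt_continuum)
    have hinf : Infinite s := by
      rw [Cardinal.infinite_iff, ← hcard, Cardinal.mk_complex]
      exact Cardinal.aleph0_le_continuum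
    obtain ⟨w, hw⟩ := exists_ne (⟨z, hzs⟩ : s)
    letI := IsAlgClosed.isAlgClosure_of_transcendence_basis _ hs
    let e : Algebra.adjoin ℚ (Set.range ((↑) : s → ℂ)) ≃+*
        Algebra.adjoin ℚ (Set.range ((↑) : s → ℂ)) :=
      (hs.1.aevalEquiv.symm.trans (MvPolynomial.renameEquiv ℚ (Equiv.swap (⟨z, hzs⟩ : s) w))).trans
        hs.1.aevalEquiv |>.toRingEquiv
    have h1 := IsAlgClosure.equivOfEquiv_algebraMap ℂ ℂ e
      (hs.1.aevalEquiv (MvPolynomial.X ⟨z, hzs⟩))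
    have h2 : e (hs.1.aevalEquiv (MvPolynomial.X ⟨z, hzs⟩)) =
        hs.1.aevalEquiv (MvPolynomial.X w) := by
      simp [e]
    rw [h2] at h1
    have h3 : ∀ u : s, algebraMap (Algebra.adjoin ℚ (Set.range ((↑) : s → ℂ))) ℂ
        (hs.1.aevalEquiv (MvPolynomial.X u)) = u := by
      intro u
      rw [AlgebraicIndependent.algebraMap_aevalEquiv]
      simp
    rw [h3, h3] at h1
    apply hw
    apply Subtype.ext
    rw [← h1]
    exact hz _

end Pool.Agent.R896.SU_AUT
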