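import Mathlib

/-!
# Powers of linear forms modulo powers of the variables

For a vector `q` with nonzero coordinates the directional derivative `Dq q` maps the forms of degree
`e + 1` with all exponents less than `b` onto those of degree `e`, as long as `2 e < N (b - 1)`,
`N` the number of variables. This is the representation theory of `sl₂`.
-/

set_option autoImplicit false

namespace Pool.Agent.R896

open MvPolynomial Finset

variable {N : ℕ}

/-- The exponents of degree `e` with all entries less than `b`. -/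
def Bx (N b e : ℕ) : Set (Fin N →₀ ℕ) := {a | a.degree = e ∧ ∀ i, a i < b}

/-- The forms of degree `e` with all exponents less than `b`. -/
noncomputable def VV (N b e : ℕ) : Submodule ℂ (MvPolynomial (Fin N) ℂ) :=
  restrictSupport ℂ (Bx N b e)

/-- The derivative in the direction `q`. -/
noncomputable def Dq (q : Fin N → ℂ) : MvPolynomial (Fin N) ℂ →ₗ[ℂ] MvPolynomial (Fin N) ℂ :=
  ∑ i, q i • (pderiv i : Derivation ℂ (MvPolynomial (Fin N) ℂ) (MvPolynomial (Fin N) ℂ)).toLinearMap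

lemma Dq_apply (q : Fin N → ℂ) (f : MvPolynomial (Fin N) ℂ) :
    Dq q f = ∑ i, q i • pderiv i f := by
  simp [Dq, LinearMap.sum_apply]

/-- The raising operator. -/
noncomputable def Uq (b : ℕ) (q : Fin N → ℂ) :
    MvPolynomial (Fin N) ℂ →ₗ[ℂ] MvPolynomial (Fin N) ℂ :=
  ∑ i, (q i)⁻¹ • (((b : ℂ) - 1) • LinearMap.mulLeft ℂ (X i) -
    (LinearMap.mulLeft ℂ (X i ^ 2)).comp
      (pderiv i : Derivation ℂ (MvPolynomial (Fin N) ℂ) (MvPolynomial (Fin N) ℂ)).toLinearMap)

lemma Uq_apply (b : ℕ) (q : Fin N → ℂ) (f : MvPolynomial (Fin N) ℂ) :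
    Uq b q f = ∑ i, (q i)⁻¹ • (((b : ℂ) - 1) • (X i * f) - X i ^ 2 * pderiv i f) := by
  simp [Uq, LinearMap.sum_apply]

lemma VV_homog {b e : ℕ} {f : MvPolynomial (Fin N) ℂ} (hf : f ∈ VV N b e) :
    f.IsHomogeneous e := by
  intro a ha
  have h1 : a ∈ Bx N b e := ((mem_restrictSupport_iff ℂ).1 hf) (mem_support_iff.2 ha)
  rw [← h1.1]
  simp [Finsupp.weight_apply, Finsupp.degree_eq_sum, Finsupp.sum_fintype]

/-- To check that a linear map sends `VV` to a submodule, it suffices to look at monomials. -/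
lemma VV_induct {b e : ℕ} {W : Submodule ℂ (MvPolynomial (Fin N) ℂ)}
    (T : MvPolynomial (Fin N) ℂ →ₗ[ℂ] MvPolynomial (Fin N) ℂ)
    (h : ∀ a ∈ Bx N b e, T (monomial a 1) ∈ W) {f : MvPolynomial (Fin N) ℂ} (hf : f ∈ VV N b e) :
    T f ∈ W := by
  rw [VV, restrictSupport_eq_span] at hf
  refine Submodule.span_induction (p := fun g _ => T g ∈ W) ?_ ?_ ?_ ?_ hf
  · rintro _ ⟨a, ha, rfl⟩
    exact h a ha
  · simp
  · intro x y _ _ hx hy
    rw [map_add]; exact W.add_mem hx hy
  · intro c x _ hx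
    rw [map_smul]; exact W.smul_mem _ hx

lemma monomial_mem {b e : ℕ} {a : Fin N →₀ ℕ} (ha : a ∈ Bx N b e) (r : ℂ) :
    monomial a r ∈ VV N b e := (monomial_mem_restrictSupport ℂ).2 (Or.inl ha)

lemma Dq_mem {b e : ℕ} (q : Fin N → ℂ) {f : MvPolynomial (Fin N) ℂ} (hf : f ∈ VV N b (e + 1)) :
    Dq q f ∈ VV N b e := by
  refine VV_induct (Dq q) ?_ hf
  intro a ha
  rw [Dq_apply]
  refine Submodule.sum_mem _ fun i _ => Submodule.smul_mem _ _ ?_
  rw [pderiv_monomial]
  by_cases hi : a i = 0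
  · rw [hi]; simp
  · refine monomial_mem ⟨?_, fun l => ?_⟩ _
    · have h1 : (a - Finsupp.single i 1) + Finsupp.single i 1 = a :=
        tsub_add_cancel_of_le (Finsupp.single_le_iff.2 (Nat.one_le_iff_ne_zero.2 hi))
      have h2 := congrArg Finsupp.degree h1
      rw [map_add, ha.1, Finsupp.degree_single] at h2
      omega
    · have := ha.2 l
      rw [Finsupp.tsub_apply]
      omega

lemma Dq_zero {b : ℕ} (q : Fin N → ℂ) {f : MvPolynomial (Fin N) ℂ} (hf : f ∈ VV N b 0) :
    Dq q f = 0 := by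
  have : Dq q f ∈ (⊥ : Submodule ℂ (MvPolynomial (Fin N) ℂ)) := by
    refine VV_induct (Dq q) ?_ hf
    intro a ha
    have h0 : a = 0 := (Finsupp.degree_eq_zero_iff a).1 ha.1
    rw [Submodule.mem_bot, Dq_apply]
    refine Finset.sum_eq_zero fun i _ => ?_
    rw [pderiv_monomial, h0]
    simp
  exact (Submodule.mem_bot ℂ).1 this

lemma Uq_mem {b e : ℕ} (q : Fin N → ℂ) {f : MvPolynomial (Fin N) ℂ} (hf : f ∈ VV N b e) :
    Uq b q f ∈ VV N b (e + 1) := by
  refine VV_induct (Uq b q) ?_ hf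
  intro a ha
  rw [Uq_apply]
  refine Submodule.sum_mem _ fun i _ => Submodule.smul_mem _ _ ?_
  have h1 : ((b : ℂ) - 1) • (X i * monomial a (1 : ℂ)) - X i ^ 2 * pderiv i (monomial a (1 : ℂ)) =
      monomial (a + Finsupp.single i 1) ((b : ℂ) - 1 - a i) := by
    have h2 : X i * monomial a (1 : ℂ) = monomial (a + Finsupp.single i 1) 1 := by
      rw [X, monomial_mul, one_mul, add_comm]
    rw [h2, pderiv_monomial, smul_monomial]
    by_cases hi : a i = 0
    · rw [hi]; simp
    · have h3 : (a - Finsupp.single i 1) + Finsupp.single i 1 = a :=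
        tsub_add_cancel_of_le (Finsupp.single_le_iff.2 (Nat.one_le_iff_ne_zero.2 hi))
      have h4 : (X i : MvPolynomial (Fin N) ℂ) ^ 2 *
          monomial (a - Finsupp.single i 1) ((1 : ℂ) * (a i : ℂ)) =
          monomial (a + Finsupp.single i 1) (a i : ℂ) := by
        rw [X, sq, monomial_mul, monomial_mul]
        have h5 : Finsupp.single i 1 + Finsupp.single i 1 + (a - Finsupp.single i 1) =
            a + Finsupp.single i 1 := by
          rw [add_assoc, add_comm (Finsupp.single i 1) (a - Finsupp.single i 1), h3, add_comm]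
        rw [h5]
        congr 1
        ring
      rw [h4, ← map_sub]
      congr 1
      simp
  rw [h1]
  by_cases hb : a i + 1 < b
  · refine monomial_mem ⟨?_, fun l => ?_⟩ _
    · rw [map_add, ha.1, Finsupp.degree_single]
    · rw [Finsupp.add_apply, Finsupp.single_apply]
      have := ha.2 l
      split_ifs with h
      · subst h; exact hb
      · omega
  · have h2 : a i + 1 = b := by have := ha.2 i; omega
    have h3 : (b : ℂ) - 1 - a i = 0 := by
      rw [← h2]; push_cast; ring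
    rw [h3, map_zero]
    exact Submodule.zero_mem _

lemma pd_comm (i j : Fin N) (f : MvPolynomial (Fin N) ℂ) :
    pderiv i (pderiv j f) = pderiv j (pderiv i f) := by
  by_cases hij : i = j
  · rw [hij]
  ext m
  rw [coeff_pderiv, coeff_pderiv, coeff_pderiv, coeff_pderiv]
  have h1 : m + Finsupp.single i 1 + Finsupp.single j 1 =
      m + Finsupp.single j 1 + Finsupp.single i 1 := add_right_comm _ _ _
  rw [h1, Finsupp.add_apply, Finsupp.add_apply, Finsupp.single_eq_of_ne (Ne.symm hij),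
    Finsupp.single_eq_of_ne hij]
  simp only [add_zero]
  ring

lemma Dq_mul (q : Fin N → ℂ) (g h : MvPolynomial (Fin N) ℂ) :
    Dq q (g * h) = g * Dq q h + Dq q g * h := by
  simp only [Dq_apply, Derivation.leibniz, smul_eq_mul, Finset.mul_sum, Finset.sum_mul,
    ← Finset.sum_add_distrib]
  refine Finset.sum_congr rfl fun i _ => ?_
  rw [smul_add, mul_smul_comm, smul_mul_assoc, mul_comm h]

lemma Dq_X (q : Fin N → ℂ) (i : Fin N) : Dq q (X i) = C (q i) := by
  rw [Dq_apply, Finset.sum_eq_single i]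
  · rw [pderiv_X_self, smul_eq_C_mul, mul_one]
  · intro j _ hj
    rw [pderiv_X_of_ne (Ne.symm hj), smul_zero]
  · intro h; exact absurd (mem_univ _) h

lemma Dq_pd (q : Fin N → ℂ) (i : Fin N) (f : MvPolynomial (Fin N) ℂ) :
    Dq q (pderiv i f) = pderiv i (Dq q f) := by
  rw [Dq_apply, Dq_apply, map_sum]
  refine Finset.sum_congr rfl fun j _ => ?_
  rw [Derivation.map_smul, pd_comm]

/-- The commutation relation of `sl₂`. -/
lemma comm_rel {b e : ℕ} {q : Fin N → ℂ} (hq : ∀ i, q i ≠ 0) {f : MvPolynomial (Fin N) ℂ}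
    (hf : f.IsHomogeneous e) :
    Dq q (Uq b q f) = Uq b q (Dq q f) + ((N : ℂ) * ((b : ℂ) - 1) - 2 * e) • f := by
  have heuler : ∑ i, X i * pderiv i f = (e : ℂ) • f := by
    have := hf.sum_X_mul_pderiv
    rw [this, ← Nat.cast_smul_eq_nsmul ℂ]
  have key : ∀ i, Dq q ((q i)⁻¹ • (((b : ℂ) - 1) • (X i * f) - X i ^ 2 * pderiv i f)) =
      (q i)⁻¹ • (((b : ℂ) - 1) • (X i * Dq q f) - X i ^ 2 * pderiv i (Dq q f)) +
        (((b : ℂ) - 1) • f - (2 : ℂ) • (X i * pderiv i f)) := by
    intro i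
    have hAB : (C (q i)⁻¹ : MvPolynomial (Fin N) ℂ) * C (q i) = 1 := by
      rw [← C_mul, inv_mul_cancel₀ (hq i), C_1]
    have h2 : (C 2 : MvPolynomial (Fin N) ℂ) = 2 := map_ofNat C 2
    rw [map_smul, map_sub, map_smul, Dq_mul, Dq_mul, Dq_X, sq, Dq_mul, Dq_X, Dq_pd]
    simp only [smul_eq_C_mul]
    rw [h2]
    generalize (C (q i)⁻¹ : MvPolynomial (Fin N) ℂ) = A at *
    generalize (C (q i) : MvPolynomial (Fin N) ℂ) = B at *
    generalize (C ((b : ℂ) - 1) : MvPolynomial (Fin N) ℂ) = c at *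
    generalize Dq q f = F at *
    generalize (pderiv i) F = G at *
    generalize (pderiv i) f = H at *
    linear_combination (c * f - 2 * X i * H) * hAB
  rw [Uq_apply, Uq_apply, map_sum, Finset.sum_congr rfl fun i _ => key i, Finset.sum_add_distrib]
  congr 1
  rw [Finset.sum_sub_distrib, ← Finset.smul_sum, ← Finset.smul_sum, heuler]
  simp only [Finset.sum_const, Finset.card_univ, Fintype.card_fin]
  rw [← Nat.cast_smul_eq_nsmul ℂ, smul_smul, smul_smul, ← sub_smul, mul_comm ((b : ℂ) - 1)]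

instance finDim_VV (b e : ℕ) : FiniteDimensional ℂ (VV N b e) := by
  have : (Bx N b e).Finite := by
    refine Set.Finite.subset (Finsupp.finite_of_degree_le e) ?_
    intro a ha
    exact ha.1.le
  have := this.fintype
  exact Module.Finite.of_basis (basisRestrictSupport ℂ (Bx N b e))

/-- `D U + μ` is injective below the middle. -/
lemma inj_aux {b : ℕ} {q : Fin N → ℂ} (hq : ∀ i, q i ≠ 0) (e : ℕ) :
    ∀ (_ : 2 * e < N * (b - 1)) (μ : ℝ) (_ : 0 ≤ μ) (f : MvPolynomial (Fin N) ℂ),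
      f ∈ VV N b e → Dq q (Uq b q f) + (μ : ℂ) • f = 0 → f = 0 := by
  induction e with
  | zero =>
    intro he μ hμ f hf h
    rw [comm_rel hq (VV_homog hf), Dq_zero q hf, map_zero, zero_add, ← add_smul] at h
    rcases smul_eq_zero.1 h with h1 | h1
    · exfalso
      have hb : 1 ≤ b := by
        rcases Nat.eq_zero_or_pos b with h0 | h0
        · subst h0; simp at he
        · exact h0
      have h2 : ((N : ℂ) * ((b : ℂ) - 1) - 2 * ((0 : ℕ) : ℂ) + (μ : ℂ)) =
          (((N * (b - 1) : ℕ) : ℝ) + μ : ℝ) := by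
        push_cast [Nat.cast_sub hb]
        ring
      rw [h2] at h1
      have h3 : (((N * (b - 1) : ℕ) : ℝ) + μ : ℝ) = 0 := by exact_mod_cast h1
      have h4 : (0 : ℝ) < ((N * (b - 1) : ℕ) : ℝ) := by
        exact_mod_cast (by omega : 0 < N * (b - 1))
      linarith
    · exact h1
  | succ e ih =>
    intro he μ hμ f hf h
    have hb : 1 ≤ b := by
      rcases Nat.eq_zero_or_pos b with h0 | h0
      · subst h0; simp at he
      · exact h0
    obtain ⟨lam, hlam⟩ : ∃ lam : ℝ, lam = ((N * (b - 1) : ℕ) : ℝ) - 2 * ((e + 1 : ℕ) : ℝ) := ⟨_, rfl⟩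
    have hlam0 : 0 < lam := by
      have : ((2 * (e + 1) : ℕ) : ℝ) < ((N * (b - 1) : ℕ) : ℝ) := by exact_mod_cast he
      rw [hlam]
      push_cast at this ⊢
      linarith
    have hlamC : ((N : ℂ) * ((b : ℂ) - 1) - 2 * ((e + 1 : ℕ) : ℂ)) = (lam : ℂ) := by
      rw [hlam]
      push_cast [Nat.cast_sub hb]
      ring
    rw [comm_rel hq (VV_homog hf), hlamC, add_assoc, ← add_smul] at h
    have h1 := congrArg (Dq q) h
    rw [map_add, map_smul, map_zero] at h1
    have h2 := ih (by omega) (lam + μ) (by linarith) (Dq q f) (Dq_mem q hf) (by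
      rw [← h1]; push_cast; rfl)
    rw [h2, map_zero, zero_add] at h
    rcases smul_eq_zero.1 h with h3 | h3
    · exfalso
      have h4 : (lam + μ : ℝ) = 0 := by exact_mod_cast h3
      linarith
    · exact h3

/-- Below the middle the derivative is surjective. -/
lemma Dq_surj {b e : ℕ} {q : Fin N → ℂ} (hq : ∀ i, q i ≠ 0) (he : 2 * e < N * (b - 1))
    {g : MvPolynomial (Fin N) ℂ} (hg : g ∈ VV N b e) : ∃ f ∈ VV N b (e + 1), Dq q f = g := by
  let T : VV N b e →ₗ[ℂ] VV N b e :=
    ((Dq q).comp (Uq b q)).restrict (fun f hf => Dq_mem q (Uq_mem q hf))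
  have hinj : Function.Injective T := by
    rw [← LinearMap.ker_eq_bot, LinearMap.ker_eq_bot']
    intro f hf
    have h1 : Dq q (Uq b q f.1) = 0 := congrArg Subtype.val hf
    have := inj_aux hq e he 0 le_rfl f.1 f.2 (by rw [h1]; simp)
    exact Subtype.ext this
  have hsurj : Function.Surjective T := LinearMap.injective_iff_surjective.1 hinj
  obtain ⟨f, hf⟩ := hsurj ⟨g, hg⟩
  exact ⟨Uq b q f.1, Uq_mem q f.2, congrArg Subtype.val hf⟩

lemma Dq_pow_mem {b e c : ℕ} (q : Fin N → ℂ) {f : MvPolynomial (Fin N) ℂ}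
    (hf : f ∈ VV N b (e + c)) : (Dq q ^ c) f ∈ VV N b e := by
  induction c generalizing f with
  | zero => simpa using hf
  | succ c ih =>
    rw [pow_succ, Module.End.mul_apply]
    exact ih (Dq_mem q hf)

lemma Dq_pow_surj {b e c : ℕ} {q : Fin N → ℂ} (hq : ∀ i, q i ≠ 0)
    (he : 2 * (e + c) < N * (b - 1) + 2)
    {g : MvPolynomial (Fin N) ℂ} (hg : g ∈ VV N b e) :
    ∃ f ∈ VV N b (e + c), (Dq q ^ c) f = g := by
  induction c with
  | zero => exact ⟨g, hg, by simp⟩
  | succ c ih =>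
    obtain ⟨f, hf, hfg⟩ := ih (by omega)
    obtain ⟨f', hf', hff'⟩ := Dq_surj hq (show 2 * (e + c) < N * (b - 1) by omega) hf
    exact ⟨f', hf', by rw [pow_succ, Module.End.mul_apply, hff', hfg]⟩

end Pool.Agent.R896
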