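import Pool.Agent.R896.Sl2
import Pool.Agent.H689R3.WeylGeomC

/-!
# Vanishing order and iterated directional derivatives
-/

set_option autoImplicit false

namespace Pool.Agent.R896

open MvPolynomial Finset
open Pool.Agent.H689R3.Weyl (shift mem_ker_pow_iff)

variable {N : ℕ}

/-- the Taylor expansion as a polynomial in a parameter -/
noncomputable def taylor (q : Fin N → ℂ) :
    MvPolynomial (Fin N) ℂ →ₐ[ℂ] Polynomial (MvPolynomial (Fin N) ℂ) :=
  aeval (fun i => Polynomial.C (X i) + Polynomial.C (C (q i)) * Polynomial.X)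

lemma taylor_X (q : Fin N → ℂ) (i : Fin N) :
    taylor q (X i) = Polynomial.C (X i) + Polynomial.C (C (q i)) * Polynomial.X := by
  simp [taylor]

lemma taylor_C (q : Fin N → ℂ) (a : ℂ) : taylor q (C a) = Polynomial.C (C a) := by
  rw [← MvPolynomial.algebraMap_eq, (taylor q).commutes]
  rfl

lemma Dq_C (q : Fin N → ℂ) (a : ℂ) : Dq q (C a) = 0 := by
  rw [Dq_apply]
  exact Finset.sum_eq_zero fun i _ => by rw [pderiv_C, smul_zero]

lemma derivative_taylor (q : Fin N → ℂ) (f : MvPolynomial (Fin N) ℂ) :
    Polynomial.derivative (taylor q f) = taylor q (Dq q f) := by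
  induction f using MvPolynomial.induction_on with
  | C a => rw [taylor_C, Dq_C, Polynomial.derivative_C, map_zero]
  | add f g hf hg => rw [map_add, map_add, map_add, map_add, hf, hg]
  | mul_X f i hf =>
    rw [map_mul (taylor q) f (X i), Polynomial.derivative_mul, Dq_mul, map_add (taylor q),
      map_mul (taylor q), map_mul (taylor q), hf, Dq_X, taylor_C, taylor_X]
    simp only [Polynomial.derivative_add, Polynomial.derivative_C, Polynomial.derivative_mul,
      Polynomial.derivative_X]
    ring

lemma coeff_zero_taylor (q : Fin N → ℂ) (f : MvPolynomial (Fin N) ℂ) :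
    (taylor q f).coeff 0 = f := by
  induction f using MvPolynomial.induction_on with
  | C a => rw [taylor_C, Polynomial.coeff_C_zero]
  | add f g hf hg => rw [map_add, Polynomial.coeff_add, hf, hg]
  | mul_X f i hf =>
    rw [map_mul, Polynomial.mul_coeff_zero, hf, taylor_X]
    simp

lemma coeff_taylor (q : Fin N → ℂ) (j : ℕ) : ∀ f : MvPolynomial (Fin N) ℂ,
    (taylor q f).coeff j * (j.factorial : MvPolynomial (Fin N) ℂ) = (Dq q ^ j) f := by
  induction j with
  | zero => intro f; simp [coeff_zero_taylor]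
  | succ j ih =>
    intro f
    have h1 := ih (Dq q f)
    rw [← derivative_taylor, Polynomial.coeff_derivative] at h1
    rw [pow_succ, Module.End.mul_apply, ← h1, Nat.factorial_succ]
    push_cast
    ring

lemma Dq_homog {e : ℕ} (q : Fin N → ℂ) {f : MvPolynomial (Fin N) ℂ} (hf : f.IsHomogeneous e) :
    (Dq q f).IsHomogeneous (e - 1) := by
  rw [Dq_apply]
  refine MvPolynomial.IsHomogeneous.sum _ _ _ fun i _ => ?_
  rw [smul_eq_C_mul]
  have h1 := (isHomogeneous_C (Fin N) (q i)).mul (hf.pderiv (i := i))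
  simpa using h1

lemma Dq_pow_homog {e : ℕ} (q : Fin N → ℂ) {f : MvPolynomial (Fin N) ℂ} (hf : f.IsHomogeneous e)
    (j : ℕ) : ((Dq q ^ j) f).IsHomogeneous (e - j) := by
  induction j with
  | zero => simpa using hf
  | succ j ih =>
    rw [pow_succ', Module.End.mul_apply]
    have := Dq_homog q ih
    rwa [Nat.sub_sub] at this

lemma shift_eq {n : ℕ} (q : Fin (n + 1) → ℂ) (f : MvPolynomial (Fin (n + 1)) ℂ) :
    shift q f = (taylor q f).eval 1 := by
  have h : (shift q : MvPolynomial (Fin (n + 1)) ℂ →ₐ[ℂ] MvPolynomial (Fin (n + 1)) ℂ).toRingHom =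
      (Polynomial.evalRingHom (1 : MvPolynomial (Fin (n + 1)) ℂ)).comp (taylor q).toRingHom := by
    apply MvPolynomial.ringHom_ext
    · intro r
      change shift q (C r) = (taylor q (C r)).eval 1
      rw [taylor_C, Polynomial.eval_C, ← MvPolynomial.algebraMap_eq, AlgHom.commutes]
    · intro i
      change shift q (X i) = (taylor q (X i)).eval 1
      rw [taylor_X]
      simp [shift]
  exact DFunLike.congr_fun h f

/-- A form of degree `d` which is killed by the `c`-th derivative in the direction `q` vanishes at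
`q` to the order `d - c + 1`. -/
lemma vanish {n d c m : ℕ} (q : Fin (n + 1) → ℂ) {f : MvPolynomial (Fin (n + 1)) ℂ}
    (hf : f.IsHomogeneous d) (h : (Dq q ^ c) f = 0) (hm : m + c ≤ d + 1) :
    f ∈ (RingHom.ker (MvPolynomial.eval q)) ^ m := by
  rw [mem_ker_pow_iff]
  intro b hb
  rw [shift_eq, Polynomial.eval_eq_sum_range]
  simp only [one_pow, mul_one]
  rw [coeff_sum]
  refine Finset.sum_eq_zero fun j _ => ?_
  have h1 := coeff_taylor q j f
  have h2 : (taylor q f).coeff j = C ((j.factorial : ℂ)⁻¹) * (Dq q ^ j) f := by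
    rw [← h1]
    have h3 : (C ((j.factorial : ℂ)⁻¹) : MvPolynomial (Fin (n + 1)) ℂ) *
        (j.factorial : MvPolynomial (Fin (n + 1)) ℂ) = 1 := by
      have h4 : (j.factorial : MvPolynomial (Fin (n + 1)) ℂ) = C (j.factorial : ℂ) := by simp
      rw [h4, ← C_mul, inv_mul_cancel₀ (by exact_mod_cast j.factorial_ne_zero), C_1]
    linear_combination -((taylor q f).coeff j) * h3
  rw [h2, coeff_C_mul]
  rcases Nat.lt_or_ge j c with hj | hj
  · have h5 := Dq_pow_homog q hf j
    have h6 : coeff b ((Dq q ^ j) f) = 0 := by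
      apply h5.coeff_eq_zero
      omega
    rw [h6, mul_zero]
  · have h7 : (Dq q ^ j) f = 0 := by
      obtain ⟨k, rfl⟩ := Nat.exists_eq_add_of_le hj
      rw [add_comm c k, pow_add, Module.End.mul_apply, h, map_zero]
    rw [h7, coeff_zero, mul_zero]

end Pool.Agent.R896
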